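import Pool.Agent.N303.LS.Stm5
import Pool.Agent.N492.LS.Ort

/-!
# Project LT, part BW: Bessel's inequality on `ℝ^d` with weights (helper562)
-/

set_option autoImplicit false

namespace Pool.Agent.N562.LS

open MeasureTheory Pool.Agent.N303.LS Pool.Agent.N492.LS
open scoped ENNReal FourierTransform RealInnerProductSpace SchwartzMap ComplexConjugate

section

variable {d : ℕ}

theorem int_W {N : ℕ} (hN : d < 2 * N) : Integrable (W N : E d → ℝ) := by
  have h1 := integrable_rpow_neg_one_add_norm_sq (E := E d) (μ := volume)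
    (r := ((2 * N : ℕ) : ℝ)) (by
      simp only [finrank_euclideanSpace, Fintype.card_fin]
      exact_mod_cast hN)
  refine h1.congr (Filter.Eventually.of_forall fun x => ?_)
  show ((1 : ℝ) + ‖x‖ ^ 2) ^ (-((2 * N : ℕ) : ℝ) / 2) = ((1 + ‖x‖ ^ 2) ^ N)⁻¹
  have h2 : (0 : ℝ) < 1 + ‖x‖ ^ 2 := by positivity
  have h3 : -((2 * N : ℕ) : ℝ) / 2 = -(N : ℝ) := by push_cast; ring
  rw [h3, Real.rpow_neg h2.le, Real.rpow_natCast]

theorem tw (N : ℕ) (z : E d) (S : Finset (Fin d → ℤ)) (c : (Fin d → ℤ) → ℂ) :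
    volume (cu 1 (0 : E d)) *
      ∫⁻ u, ‖tp S c u‖ₑ ^ (2 : ℝ) * ENNReal.ofReal (W N (u - z)) ≤
      ENNReal.ofReal ((2 * (1 + d)) ^ N * 2 ^ d * ∑ m ∈ S, ‖c m‖ ^ 2) *
        ∫⁻ a : E d, ENNReal.ofReal (W N a) := by
  have hwm : Measurable fun x : E d => ENNReal.ofReal (W N (x - z)) :=
    ENNReal.measurable_ofReal.comp
      ((cont_W N).comp (continuous_id.sub continuous_const)).measurable
  have hX : 0 ≤ ∑ m ∈ S, ‖c m‖ ^ 2 := Finset.sum_nonneg fun m _ => by positivity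
  have hfm : Measurable fun x : E d =>
      ‖tp S c x‖ₑ ^ (2 : ℝ) * ENNReal.ofReal (W N (x - z)) :=
    ((cont_tp S c).measurable.enorm.pow_const _).mul hwm
  rw [← avg 1 hfm]
  have h1 : ∀ a : E d, ∫⁻ x in cu 1 a, ‖tp S c x‖ₑ ^ (2 : ℝ) * ENNReal.ofReal (W N (x - z)) ≤
      ENNReal.ofReal ((2 * (1 + d)) ^ N * 2 ^ d * ∑ m ∈ S, ‖c m‖ ^ 2) *
        ENNReal.ofReal (W N (a - z)) := by
    intro a
    have h2 : ∫⁻ x in cu 1 a, ‖tp S c x‖ₑ ^ (2 : ℝ) * ENNReal.ofReal (W N (x - z)) ≤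
        ∫⁻ x in cu 1 a, ‖tp S c x‖ₑ ^ (2 : ℝ) *
          ENNReal.ofReal ((2 * (1 + d)) ^ N * W N (a - z)) := by
      refine setLIntegral_mono' (cu_meas 1 a) fun x hx => ?_
      refine mul_le_mul_right (ENNReal.ofReal_le_ofReal ?_) _
      have h3 := cu_norm hx
      exact peetre N (D := (d : ℝ)) (by simpa using h3) z
    refine h2.trans ?_
    rw [lintegral_mul_const' _ _ ENNReal.ofReal_ne_top, int_tp,
      ← ENNReal.ofReal_mul (by positivity), ← ENNReal.ofReal_mul (by positivity)]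
    refine le_of_eq (congrArg _ ?_)
    push_cast
    ring
  refine (lintegral_mono h1).trans ?_
  rw [lintegral_const_mul' _ _ ENNReal.ofReal_ne_top,
    lintegral_sub_right_eq_self (fun a : E d => ENNReal.ofReal (W N a)) z]

theorem pt_ineq {C a t q1 q2 : ℝ} (hC : 0 < C) (h1 : 0 ≤ q1) (h1' : q1 ≤ 1)
    (h2 : 0 ≤ q2) (h2' : q2 ≤ 1) :
    2 * (a * (q1 * q2) * t) ≤ C * (a ^ 2 * q1) + C⁻¹ * (t ^ 2 * q2) := by
  have h3 : 0 ≤ C⁻¹ * ((C * a * q1 - t) ^ 2 * q2) := by positivity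
  have h4 : C⁻¹ * ((C * a * q1 - t) ^ 2 * q2) =
      C * (a ^ 2 * q1) * (q1 * q2) - 2 * (a * (q1 * q2) * t) + C⁻¹ * (t ^ 2 * q2) := by
    field_simp
    ring
  have h5 : C * (a ^ 2 * q1) * (q1 * q2) ≤ C * (a ^ 2 * q1) :=
    mul_le_of_le_one_right (by positivity) (mul_le_one₀ h1' h2 h2')
  linarith

theorem v1_ne : volume (cu 1 (0 : E d)) ≠ 0 := by
  have h1 : Metric.ball (0 : E d) 1 ⊆ cu 1 (0 : E d) := by
    intro x hx j
    rw [mem_ball_zero_iff] at hx
    have h2 : |x j| ≤ ‖x‖ := PiLp.norm_apply_le x j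
    have h3 : x j - (0 : E d) j = x j := sub_zero _
    rw [h3]
    push_cast
    exact h2.trans hx.le
  exact ((Metric.measure_ball_pos volume (0 : E d) one_pos).trans_le (measure_mono h1)).ne'

end

theorem t_bw : S_BW := by
  intro d M
  set N : ℕ := d + 1 with hN
  set v1 : ℝ≥0∞ := volume (cu 1 (0 : E d)) with hv1
  have hv1t : v1 ≠ ⊤ := (cu_compact 1 (0 : E d)).measure_lt_top.ne
  have hv10 : v1 ≠ 0 := v1_ne
  set I : ℝ≥0∞ := ∫⁻ a : E d, ENNReal.ofReal (W N a) with hI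
  have hIt : I ≠ ⊤ := (int_W (d := d) (N := N) (by omega)).lintegral_lt_top.ne
  set Q : ℝ≥0∞ := v1⁻¹ * (ENNReal.ofReal ((2 * (1 + d)) ^ N * 2 ^ d) * I) with hQ
  have hQt : Q ≠ ⊤ := ENNReal.mul_ne_top (ENNReal.inv_ne_top.2 hv10)
    (ENNReal.mul_ne_top ENNReal.ofReal_ne_top hIt)
  set C : ℝ := Q.toReal + 1 with hCd
  have hC : 0 < C := by positivity
  have hQC : Q ≤ ENNReal.ofReal C := by
    calc Q = ENNReal.ofReal Q.toReal := (ENNReal.ofReal_toReal hQt).symm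
      _ ≤ _ := ENNReal.ofReal_le_ofReal (by linarith)
  refine ⟨M + N, C, hC, by omega, ?_⟩
  intro h hh hb z ξ S
  obtain ⟨b, hb⟩ := hb
  have hpos : ∀ u : E d, (0 : ℝ) < 1 + ‖u - z‖ ^ 2 := fun u => by positivity
  set H : E d → ℂ := fun u => h u * (((1 + ‖u - z‖ ^ 2) ^ (M + N) : ℝ) : ℂ)⁻¹ with hH
  have hHe : ∀ u, H u = h u * ((W (M + N) (u - z) : ℝ) : ℂ) := by
    intro u
    simp only [hH, W]
    push_cast
    rfl
  have hHi : Integrable H := by
    have h1 : Integrable fun u : E d => ((W (M + N) (u - z) : ℝ) : ℂ) :=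
      ((int_W (d := d) (N := M + N) (by omega)).comp_sub_right z).ofReal
    have h2 := int_bdd h1 hh.aestronglyMeasurable hb
    exact h2.congr (Filter.Eventually.of_forall fun u => (hHe u).symm)
  set β : (Fin d → ℤ) → ℂ := fun m => ∫ u, H u * conj (e ⟪u, ξ + pt m⟫) with hβ
  have hβ1 : ∀ m, ∫ u : E d, h u * (((1 + ‖u - z‖ ^ 2) ^ (M + N) : ℝ) : ℂ)⁻¹ *
      Complex.exp (((-(2 * Real.pi * ⟪u, ξ + pt m⟫) : ℝ) : ℂ) * Complex.I) = β m := by
    intro m
    refine integral_congr_ae (Filter.Eventually.of_forall fun u => ?_)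
    show h u * (((1 + ‖u - z‖ ^ 2) ^ (M + N) : ℝ) : ℂ)⁻¹ *
      Complex.exp (((-(2 * Real.pi * ⟪u, ξ + pt m⟫) : ℝ) : ℂ) * Complex.I) =
      h u * (((1 + ‖u - z‖ ^ 2) ^ (M + N) : ℝ) : ℂ)⁻¹ * conj (e ⟪u, ξ + pt m⟫)
    rw [conj_e]
    unfold e
    rw [mul_neg]
  simp only [hβ1, en2]
  set X : ℝ := ∑ m ∈ S, ‖β m‖ ^ 2 with hX
  have hXs : ∑ m ∈ S, ENNReal.ofReal (‖β m‖ ^ 2) = ENNReal.ofReal X :=
    (ENNReal.ofReal_sum_of_nonneg fun i _ => by positivity).symm
  rw [hXs]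
  have hX0 : 0 ≤ X := Finset.sum_nonneg fun m _ => by positivity
  -- duality
  have hint : ∀ m, Integrable fun u : E d => H u * conj (e ⟪u, ξ + pt m⟫) := by
    intro m
    have h1 := int_bdd (φ := fun u : E d => conj (e ⟪u, ξ + pt m⟫)) (c := 1) hHi
      ((Complex.continuous_conj.comp (cont_el (ξ + pt m))).aestronglyMeasurable)
      (fun u => by rw [RCLike.norm_conj, norm_e])
    exact h1.congr (Filter.Eventually.of_forall fun u => mul_comm _ _)
  have h1 : (X : ℂ) = ∫ u, H u * conj (e ⟪u, ξ⟫ * tp S β u) := by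
    have h2 : ∀ u : E d, H u * conj (e ⟪u, ξ⟫ * tp S β u) =
        ∑ m ∈ S, conj (β m) * (H u * conj (e ⟪u, ξ + pt m⟫)) := by
      intro u
      unfold tp
      rw [Finset.mul_sum, map_sum, Finset.mul_sum]
      refine Finset.sum_congr rfl fun m _ => ?_
      rw [inner_add_right, e_add, map_mul, map_mul, map_mul]
      ring
    simp only [h2]
    rw [integral_finsetSum _ fun m _ => (hint m).const_mul _]
    rw [hX]
    push_cast
    refine Finset.sum_congr rfl fun m _ => ?_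
    rw [integral_const_mul]
    show ((‖β m‖ : ℝ) : ℂ) ^ 2 = conj (β m) * β m
    rw [RCLike.conj_mul]
    rfl
  have h2 : ENNReal.ofReal X ≤ ∫⁻ u, ‖H u‖ₑ * ‖tp S β u‖ₑ := by
    have h3 : ENNReal.ofReal X = ‖(X : ℂ)‖ₑ := by
      rw [← ofReal_norm, Complex.norm_real, Real.norm_of_nonneg hX0]
    rw [h3, h1]
    refine (enorm_integral_le_lintegral_enorm _).trans (le_of_eq (lintegral_congr fun u => ?_))
    rw [enorm_mul]
    congr 1
    rw [← ofReal_norm, RCLike.norm_conj, norm_mul, norm_e, one_mul, ofReal_norm]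
  have hwm : ∀ K : ℕ, Measurable fun x : E d => ENNReal.ofReal (W K (x - z)) := fun K =>
    ENNReal.measurable_ofReal.comp
      ((cont_W K).comp (continuous_id.sub continuous_const)).measurable
  have h3 : 2 * ENNReal.ofReal X ≤ ENNReal.ofReal C * nrg M h z +
      ENNReal.ofReal C⁻¹ * ∫⁻ u, ‖tp S β u‖ₑ ^ (2 : ℝ) * ENNReal.ofReal (W N (u - z)) := by
    refine (mul_le_mul_right h2 2).trans ?_
    unfold nrg
    rw [← lintegral_const_mul' _ _ ENNReal.ofNat_ne_top,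
      ← lintegral_const_mul' _ _ ENNReal.ofReal_ne_top,
      ← lintegral_const_mul' _ _ ENNReal.ofReal_ne_top, ← lintegral_add_left]
    · refine lintegral_mono fun u => ?_
      have h4 : 0 ≤ W M (u - z) := w_nn M _
      have h5 : 0 ≤ W N (u - z) := w_nn N _
      have h6 : ∀ K : ℕ, W K (u - z) ≤ 1 := by
        intro K
        unfold W
        refine inv_le_one_of_one_le₀ (one_le_pow₀ ?_)
        have := sq_nonneg ‖u - z‖
        linarith
      have h7 : W (M + N) (u - z) = W M (u - z) * W N (u - z) := by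
        unfold W
        rw [pow_add, mul_inv]
      have h8 : ‖H u‖ = ‖h u‖ * (W M (u - z) * W N (u - z)) := by
        rw [hHe u, norm_mul, Complex.norm_real, Real.norm_of_nonneg (w_nn _ _), h7]
      show 2 * (‖H u‖ₑ * ‖tp S β u‖ₑ) ≤
        ENNReal.ofReal C * (‖h u‖ₑ ^ (2 : ℝ) * ENNReal.ofReal (W M (u - z))) +
          ENNReal.ofReal C⁻¹ * (‖tp S β u‖ₑ ^ (2 : ℝ) * ENNReal.ofReal (W N (u - z)))
      rw [en2, en2, ← ofReal_norm, ← ofReal_norm, h8,
        ← ENNReal.ofReal_mul (by positivity), ← ENNReal.ofReal_mul (by positivity),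
        ← ENNReal.ofReal_mul (by positivity), ← ENNReal.ofReal_mul (by positivity),
        ← ENNReal.ofReal_mul (by positivity), ← ENNReal.ofReal_add (by positivity) (by positivity)]
      have h9 : ∀ y : ℝ, 2 * ENNReal.ofReal y = ENNReal.ofReal (2 * y) := by
        intro y
        rw [ENNReal.ofReal_mul (by norm_num), ENNReal.ofReal_ofNat]
      rw [h9]
      exact ENNReal.ofReal_le_ofReal (pt_ineq hC h4 (h6 M) h5 (h6 N))
    · exact ((hh.measurable.enorm.pow_const _).mul (hwm M)).const_mul _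
  have h4 : ENNReal.ofReal C⁻¹ *
      ∫⁻ u, ‖tp S β u‖ₑ ^ (2 : ℝ) * ENNReal.ofReal (W N (u - z)) ≤ ENNReal.ofReal X := by
    have h5 := tw N z S β
    have h6 : ∫⁻ u, ‖tp S β u‖ₑ ^ (2 : ℝ) * ENNReal.ofReal (W N (u - z)) ≤
        Q * ENNReal.ofReal X := by
      have h7 : ∫⁻ u, ‖tp S β u‖ₑ ^ (2 : ℝ) * ENNReal.ofReal (W N (u - z)) =
          v1⁻¹ * (v1 * ∫⁻ u, ‖tp S β u‖ₑ ^ (2 : ℝ) * ENNReal.ofReal (W N (u - z))) := by
        rw [← mul_assoc, ENNReal.inv_mul_cancel hv10 hv1t, one_mul]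
      rw [h7, hQ, mul_assoc]
      refine mul_le_mul_right (h5.trans (le_of_eq ?_)) _
      rw [ENNReal.ofReal_mul (by positivity)]
      ring
    refine (mul_le_mul_right (h6.trans (mul_le_mul_left hQC _)) _).trans (le_of_eq ?_)
    rw [← mul_assoc, ← ENNReal.ofReal_mul (by positivity), inv_mul_cancel₀ hC.ne',
      ENNReal.ofReal_one, one_mul]
  have h5 : ENNReal.ofReal X + ENNReal.ofReal X ≤
      ENNReal.ofReal C * nrg M h z + ENNReal.ofReal X := by
    rw [← two_mul]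
    exact h3.trans (add_le_add_right h4 _)
  exact (ENNReal.add_le_add_iff_right ENNReal.ofReal_ne_top).1 h5

end Pool.Agent.N562.LS
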